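import Pool.Agent.Q227.SI.Pol
import Pool.Agent.Q227.SI.Mem
import Pool.Agent.NPC.Sat2
import Pool.Agent.H673R2.HardOn

/-!
# Subgraph isomorphism on `P_5`- and on `2P_5`-subgraph-free graphs is NP-complete

The reduction is from 3-satisfiability. Both graphs are disjoint unions of stars and double stars
(trees with exactly two inner vertices), which contain no path with five vertices.
-/

set_option autoImplicit false

namespace Pool.Agent.Results.MP_143e72_lc.NPComplete

open Pool.Agent.NPC Pool.Agent.H673R2 Pool.Agent.H679R2 Pool.Agent.Q227.TF Pool.Agent.Q227.SI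

/-- The path with five vertices. -/
abbrev P5 : SimpleGraph (Fin 5) := SimpleGraph.pathGraph 5

/-- The disjoint union of two paths with five vertices. -/
abbrev twoP5 : SimpleGraph (Fin 5 ⊕ Fin 5) := P5 ⊕g P5

/-- Both presented graphs, the host `I.1` and the pattern `I.2`, are `F`-subgraph-free. -/
def BothFree {W : Type} (F : SimpleGraph W) (I : PG × PG) : Prop :=
  F.Free (toGraph I.1) ∧ F.Free (toGraph I.2)

/-- SUBGRAPH ISOMORPHISM on `F`-subgraph-free graphs: both graphs are `F`-subgraph-free, and the
host `I.1` contains the pattern `I.2` as a (not necessarily induced) subgraph. -/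
def SubgraphIso {W : Type} (F : SimpleGraph W) (I : PG × PG) : Prop :=
  BothFree F I ∧ (toGraph I.2).IsContained (toGraph I.1)

theorem twoP5_free {V : Type} {G : SimpleGraph V} (h : P5.Free G) : twoP5.Free G := fun h2 =>
  h (SimpleGraph.IsContained.trans ⟨(SimpleGraph.Embedding.sumInl (G := P5) (H := P5)).toCopy⟩ h2)

theorem bothFree (φ : F3) : BothFree P5 (host φ, pattern φ) := ⟨host_free φ, pattern_free φ⟩

theorem bothFree2 (φ : F3) : BothFree twoP5 (host φ, pattern φ) :=
  ⟨twoP5_free (host_free φ), twoP5_free (pattern_free φ)⟩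

/-- SUBGRAPH ISOMORPHISM is `NP`-complete on `P_5`-subgraph-free graphs, and on
`2P_5`-subgraph-free graphs: it is in `NP`, and every language in `NP` has a polynomial-time
many-one reduction to it, all of whose instances consist of two `P_5`-subgraph-free
(`2P_5`-subgraph-free) graphs. -/
theorem result :
    (InNPP (SubgraphIso P5) ∧ NPHardOn (BothFree P5) (SubgraphIso P5)) ∧
    (InNPP (SubgraphIso twoP5) ∧ NPHardOn (BothFree twoP5) (SubgraphIso twoP5)) := by
  refine ⟨⟨inNPP_si P5, ?_⟩, ⟨inNPP_si twoP5, ?_⟩⟩
  · exact npHardOn_of hardPr_SAT3b (f := fun φ => (host φ, pattern φ))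
      (NPC.Poly.pair host_poly pattern_poly) (fun φ _ => bothFree φ)
      fun φ hφ => (contained_iff hφ.1 hφ.2.1 hφ.2.2).trans
        ⟨fun h => ⟨bothFree φ, h⟩, fun h => h.2⟩
  · exact npHardOn_of hardPr_SAT3b (f := fun φ => (host φ, pattern φ))
      (NPC.Poly.pair host_poly pattern_poly) (fun φ _ => bothFree2 φ)
      fun φ hφ => (contained_iff hφ.1 hφ.2.1 hφ.2.2).trans
        ⟨fun h => ⟨bothFree2 φ, h⟩, fun h => h.2⟩

end Pool.Agent.Results.MP_143e72_lc.NPComplete
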